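import Pool.Agent.H477.O.Stm

set_option autoImplicit false

/-!
# Project O (helper477), task S_OINT (helper976): one integration over a vertical segment of length `B ℓ`
-/

open Complex Filter Topology Metric Set MeasureTheory

namespace Pool.Agent.H976.O

open Pool.Agent.H477.O

lemma ev_log (B κ : ℝ) (hB : 0 < B) (hκ : 0 < κ) : ∀ᶠ L : ℝ in atTop, Real.log (1 + B * L) ≤ κ * L := by
  have h1 : Tendsto (fun L : ℝ => 1 + B * L) atTop atTop :=
    tendsto_atTop_add_const_left _ _ (tendsto_id.const_mul_atTop hB)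
  have h2 := (Real.isLittleO_log_id_atTop.comp_tendsto h1).def (c := κ / (1 + B)) (by positivity)
  filter_upwards [h2, eventually_ge_atTop (1 : ℝ)] with L hL hL1
  simp only [Function.comp_apply, id, Real.norm_eq_abs] at hL
  have h3 : |1 + B * L| = 1 + B * L := abs_of_pos (by positivity)
  rw [h3] at hL
  have h4 : 1 + B * L ≤ (1 + B) * L := by nlinarith
  calc Real.log (1 + B * L) ≤ |Real.log (1 + B * L)| := le_abs_self _
    _ ≤ κ / (1 + B) * (1 + B * L) := hL
    _ ≤ κ / (1 + B) * ((1 + B) * L) := by gcongr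
    _ = κ * L := by field_simp

lemma ev_exp (C κ : ℝ) (hκ : 0 < κ) : ∀ᶠ L : ℝ in atTop, C ≤ Real.exp (κ * L) := by
  have h1 : Tendsto (fun L : ℝ => Real.exp (κ * L)) atTop atTop :=
    Real.tendsto_exp_atTop.comp (tendsto_id.const_mul_atTop hκ)
  exact h1.eventually_ge_atTop C

lemma hasDerivAt_pt (y σ u τ : ℝ) : HasDerivAt (fun t : ℝ => pt (y + σ * t) u 0) ((σ : ℂ) * I) τ := by
  have h1 : HasDerivAt (fun t : ℝ => y + σ * t + 0) σ τ := by
    have h2 := ((hasDerivAt_id τ).const_mul σ).const_add y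
    have h3 := h2.add_const (0 : ℝ)
    simpa using h3
  have h4 : HasDerivAt (fun t : ℝ => ((y + σ * t + 0 : ℝ) : ℂ)) (σ : ℂ) τ := h1.ofReal_comp
  have h5 := (h4.mul_const I).const_add (1 / 2 + (u : ℂ))
  exact h5

lemma hasDerivAt_iter {X : ℂ → ℂ} (hX : Differentiable ℂ X) (j : ℕ) (y σ u τ : ℝ) :
    HasDerivAt (fun t : ℝ => iteratedDeriv j X (pt (y + σ * t) u 0))
      (iteratedDeriv (j + 1) X (pt (y + σ * τ) u 0) * ((σ : ℂ) * I)) τ := by
  have h1 : Differentiable ℂ (iteratedDeriv j X) :=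
    (hX.contDiff (n := ((j + 1 : ℕ) : ℕ∞))).differentiable_iteratedDeriv j (by
      exact_mod_cast Nat.lt_succ_self j)
  have h2 : HasDerivAt (iteratedDeriv j X) (iteratedDeriv (j + 1) X (pt (y + σ * τ) u 0)) (pt (y + σ * τ) u 0) := by
    rw [iteratedDeriv_succ]
    exact (h1 _).hasDerivAt
  exact HasDerivAt.comp τ h2 (hasDerivAt_pt y σ u τ)

lemma int_bound (f f' : ℝ → ℂ) (T c Q : ℝ) (hc : 0 < c) (hQ0 : 0 < Q) (hT0 : 0 ≤ T)
    (hf : ∀ t : ℝ, HasDerivAt f (f' t) t)
    (hb : ∀ t : ℝ, 0 ≤ t → t ≤ T → ‖f' t‖ ≤ Q * Real.exp (-(c * t))) : ‖f T - f 0‖ ≤ Q / c := by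
  have hBd : ∀ t : ℝ, HasDerivAt (fun t : ℝ => Q / c * (1 - Real.exp (-(c * t)))) (Q * Real.exp (-(c * t))) t := by
    intro t
    have h1 : HasDerivAt (fun t : ℝ => -(c * t)) (-c) t := by
      have h0 : HasDerivAt (fun t : ℝ => (-c) * t) (-c) t := by
        have := (hasDerivAt_id t).const_mul (-c)
        simpa using this
      have h00 : (fun t : ℝ => -(c * t)) = (fun t : ℝ => (-c) * t) := by
        funext t; ring
      rw [h00]
      exact h0
    have h2 := ((h1.exp).const_sub 1).const_mul (Q / c)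
    have h3 : Q / c * -(Real.exp (-(c * t)) * -c) = Q * Real.exp (-(c * t)) := by
      field_simp
    rw [← h3]
    exact h2
  have hf' : ∀ t : ℝ, HasDerivAt (fun t : ℝ => f t - f 0) (f' t) t := fun t => (hf t).sub_const _
  have key := image_norm_le_of_norm_deriv_right_le_deriv_boundary (a := 0) (b := T)
    (f := fun t : ℝ => f t - f 0) (f' := f')
    (B := fun t : ℝ => Q / c * (1 - Real.exp (-(c * t)))) (B' := fun t : ℝ => Q * Real.exp (-(c * t)))
    (fun t _ => (hf' t).continuousAt.continuousWithinAt)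
    (fun t _ => (hf' t).hasDerivWithinAt) (by simp) hBd
    (fun t ht => hb t ht.1 ht.2.le)
  have h1 := key (right_mem_Icc.mpr hT0)
  refine le_trans h1 ?_
  have h2 : 0 < Real.exp (-(c * T)) := Real.exp_pos _
  have h3 : 0 < Q / c := by positivity
  show Q / c * (1 - Real.exp (-(c * T))) ≤ Q / c
  nlinarith

theorem oint (hcr : S_OCR) : S_OINT := by
  intro a K c D R e j hc hD hR he
  obtain ⟨K', hK'1, hK'⟩ := hcr a K j 0 R
  obtain ⟨B, hBdef⟩ : ∃ B : ℝ, B = max 1 ((2 * K' + 2) / c) := ⟨_, rfl⟩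
  have hB1 : 1 ≤ B := hBdef ▸ le_max_left _ _
  have hB2 : 2 * K' + 2 ≤ c * B := by
    have h1 : (2 * K' + 2) / c ≤ B := hBdef ▸ le_max_right _ _
    rw [div_le_iff₀ hc] at h1
    linarith
  have hB0 : 0 < B := by linarith
  have hD0 : 0 < D := by linarith
  have hRe : 0 < R + e + 1 := by linarith
  obtain ⟨κ, hκdef⟩ : ∃ κ : ℝ, κ = min (1 / 2) (e / 4 / (R + e + 1)) := ⟨_, rfl⟩
  have hκ0 : 0 < κ := by rw [hκdef]; positivity
  have hκ1 : κ ≤ 1 / 2 := hκdef ▸ min_le_left _ _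
  have hκ2 : κ * (R + e + 1) ≤ e / 4 := by
    have h1 : κ ≤ e / 4 / (R + e + 1) := hκdef ▸ min_le_right _ _
    rwa [le_div_iff₀ hRe] at h1
  have hev := (ev_log B (κ / D) hB0 (by positivity)).and
    ((ev_exp (2 * D) 2 (by norm_num)).and ((ev_exp (2 * D / c) (3 * e / 4) (by positivity)).and
      (eventually_ge_atTop (2 : ℝ))))
  obtain ⟨ℓ₀, hℓ₀⟩ := eventually_atTop.mp hev
  refine ⟨B, max 1 ℓ₀, hB1, le_max_left _ _, ?_⟩
  intro X S σ Mf lf y₀ hF y hy hL u hu huR hder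
  obtain ⟨L, hLdef⟩ : ∃ L : ℝ, L = lf y := ⟨_, rfl⟩
  rw [← hLdef] at hL hder ⊢
  obtain ⟨e1, e2, e3, e4⟩ := hℓ₀ L (le_trans (le_max_right _ _) hL)
  have hL0 : 0 < L := by linarith
  have hσ : |σ| = 1 := by
    rcases hF.sg with h | h <;> simp [h]
  have hM : 0 < Mf y := (hF.base y).hM
  have hX : Differentiable ℂ X := (hF.base y).diff
  -- the logarithm
  have hlog : ∀ τ : ℝ, 0 ≤ τ → τ ≤ B * L → D * Real.log (1 + |σ * τ|) ≤ κ * L := by
    intro τ h0 h1
    have h2 : |σ * τ| = τ := by rw [abs_mul, hσ, one_mul, abs_of_nonneg h0]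
    rw [h2]
    have h3 : Real.log (1 + τ) ≤ Real.log (1 + B * L) := Real.log_le_log (by linarith) (by linarith)
    calc D * Real.log (1 + τ) ≤ D * (κ / D * L) := by
          apply mul_le_mul_of_nonneg_left (h3.trans e1) hD0.le
      _ = κ * L := by field_simp
  have hup : ∀ τ : ℝ, 0 ≤ τ → τ ≤ B * L → lf (y + σ * τ) ≤ L + κ * L := by
    intro τ h0 h1
    have h2 := hF.lip y (y + σ * τ)
    have h3 : y + σ * τ - y = σ * τ := by ring
    rw [h3, ← hLdef] at h2
    linarith [hlog τ h0 h1]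
  have hlow : ∀ τ : ℝ, 0 ≤ τ → τ ≤ B * L → 1 ≤ lf (y + σ * τ) := by
    intro τ h0 h1
    have h2 := hF.lip (y + σ * τ) y
    have h3 : y - (y + σ * τ) = -(σ * τ) := by ring
    rw [h3, abs_neg, ← hLdef] at h2
    nlinarith [hlog τ h0 h1]
  have hT0 : 0 ≤ B * L := by positivity
  -- the end point
  have hend : ‖iteratedDeriv j X (pt (y + σ * (B * L)) u 0)‖ ≤ Mf y / 2 := by
    have h1 := hK' X _ _ _ (hF.base (y + σ * (B * L))) (hlow _ hT0 le_rfl) (pt (y + σ * (B * L)) u 0)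
      (by rw [pt_re]; rw [show (1 : ℝ) / 2 + u - 1 / 2 = u by ring, abs_of_nonneg hu]; exact huR)
      (by rw [pt_im]; simp)
    have h2 := hF.dec y (B * L) hy hT0
    have h3 : K' * lf (y + σ * (B * L)) ≤ K' * (2 * L) := by
      apply mul_le_mul_of_nonneg_left _ (by linarith)
      have := hup (B * L) hT0 le_rfl
      nlinarith
    have h4 : Real.exp (-(c * (B * L))) * Real.exp (K' * (2 * L)) ≤ Real.exp (-(2 * L)) := by
      rw [← Real.exp_add]
      apply Real.exp_le_exp.mpr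
      nlinarith
    have h5 : D * Real.exp (-(2 * L)) ≤ 1 / 2 := by
      rw [Real.exp_neg]
      have h6 : 0 < Real.exp (2 * L) := Real.exp_pos _
      rw [← div_eq_mul_inv, div_le_iff₀ h6]
      linarith
    calc ‖iteratedDeriv j X (pt (y + σ * (B * L)) u 0)‖
        ≤ Mf (y + σ * (B * L)) * Real.exp (K' * lf (y + σ * (B * L))) := h1
      _ ≤ (D * Mf y * Real.exp (-(c * (B * L)))) * Real.exp (K' * (2 * L)) := by
          apply mul_le_mul h2 (Real.exp_le_exp.mpr h3) (Real.exp_pos _).le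
          positivity
      _ = D * Mf y * (Real.exp (-(c * (B * L))) * Real.exp (K' * (2 * L))) := by ring
      _ ≤ D * Mf y * Real.exp (-(2 * L)) := by
          apply mul_le_mul_of_nonneg_left h4; positivity
      _ = Mf y * (D * Real.exp (-(2 * L))) := by ring
      _ ≤ Mf y * (1 / 2) := by apply mul_le_mul_of_nonneg_left h5 hM.le
      _ = Mf y / 2 := by ring
  -- the derivative
  obtain ⟨Q, hQdef⟩ : ∃ Q : ℝ, Q = D * Mf y * Real.exp (L * (u + e) + e / 4 * L) := ⟨_, rfl⟩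
  have hQ0 : 0 < Q := by rw [hQdef]; positivity
  have hderQ : ∀ τ : ℝ, 0 ≤ τ → τ ≤ B * L →
      ‖iteratedDeriv (j + 1) X (pt (y + σ * τ) u 0) * ((σ : ℂ) * I)‖ ≤ Q * Real.exp (-(c * τ)) := by
    intro τ h0 h1
    have h2 := hder τ h0 h1
    have h3 := hF.dec y τ hy h0
    have h4 : ‖((σ : ℂ) * I)‖ = 1 := by
      rw [norm_mul, Complex.norm_real, Real.norm_eq_abs, hσ]; simp
    rw [norm_mul, h4, mul_one]
    have h5 : lf (y + σ * τ) * (u + e) ≤ L * (u + e) + e / 4 * L := by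
      have h6 := hup τ h0 h1
      have h7 : lf (y + σ * τ) * (u + e) ≤ (L + κ * L) * (u + e) :=
        mul_le_mul_of_nonneg_right h6 (by linarith)
      have h8 : κ * (u + e) ≤ e / 4 := by
        refine le_trans (mul_le_mul_of_nonneg_left ?_ hκ0.le) hκ2
        linarith
      have h9 : κ * (u + e) * L ≤ e / 4 * L := mul_le_mul_of_nonneg_right h8 hL0.le
      nlinarith
    calc ‖iteratedDeriv (j + 1) X (pt (y + σ * τ) u 0)‖
        ≤ Mf (y + σ * τ) * Real.exp (lf (y + σ * τ) * (u + e)) := h2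
      _ ≤ (D * Mf y * Real.exp (-(c * τ))) * Real.exp (L * (u + e) + e / 4 * L) := by
          apply mul_le_mul h3 (Real.exp_le_exp.mpr h5) (Real.exp_pos _).le
          positivity
      _ = Q * Real.exp (-(c * τ)) := by rw [hQdef]; ring
  -- the integral
  have hint : ‖iteratedDeriv j X (pt (y + σ * (B * L)) u 0) - iteratedDeriv j X (pt y u 0)‖ ≤ Q / c := by
    have h0 := int_bound (fun t : ℝ => iteratedDeriv j X (pt (y + σ * t) u 0))
      (fun t : ℝ => iteratedDeriv (j + 1) X (pt (y + σ * t) u 0) * ((σ : ℂ) * I)) (B * L) c Q hc hQ0 hT0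
      (fun t => hasDerivAt_iter hX j y σ u t) hderQ
    simpa using h0
  have hQc : Q / c ≤ Mf y / 2 * Real.exp (L * (u + 2 * e)) := by
    have h1 : Real.exp (L * (u + 2 * e)) = Real.exp (L * (u + e) + e / 4 * L) * Real.exp (3 * e / 4 * L) := by
      rw [← Real.exp_add]; ring_nf
    rw [h1, hQdef]
    have h2 : D / c ≤ Real.exp (3 * e / 4 * L) / 2 := by
      have : 2 * D / c = 2 * (D / c) := by ring
      linarith
    have h3 : 0 < Mf y * Real.exp (L * (u + e) + e / 4 * L) := by positivity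
    calc D * Mf y * Real.exp (L * (u + e) + e / 4 * L) / c
        = (Mf y * Real.exp (L * (u + e) + e / 4 * L)) * (D / c) := by ring
      _ ≤ (Mf y * Real.exp (L * (u + e) + e / 4 * L)) * (Real.exp (3 * e / 4 * L) / 2) :=
          mul_le_mul_of_nonneg_left h2 h3.le
      _ = Mf y / 2 * (Real.exp (L * (u + e) + e / 4 * L) * Real.exp (3 * e / 4 * L)) := by ring
  have h1le : 1 ≤ Real.exp (L * (u + 2 * e)) := by
    apply Real.one_le_exp
    positivity
  have htri : ‖iteratedDeriv j X (pt y u 0)‖ ≤ ‖iteratedDeriv j X (pt (y + σ * (B * L)) u 0)‖ +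
      ‖iteratedDeriv j X (pt (y + σ * (B * L)) u 0) - iteratedDeriv j X (pt y u 0)‖ := by
    have h1 : iteratedDeriv j X (pt y u 0) = iteratedDeriv j X (pt (y + σ * (B * L)) u 0) -
        (iteratedDeriv j X (pt (y + σ * (B * L)) u 0) - iteratedDeriv j X (pt y u 0)) := by ring
    calc ‖iteratedDeriv j X (pt y u 0)‖ = ‖iteratedDeriv j X (pt (y + σ * (B * L)) u 0) -
        (iteratedDeriv j X (pt (y + σ * (B * L)) u 0) - iteratedDeriv j X (pt y u 0))‖ := by rw [← h1]
      _ ≤ _ := norm_sub_le _ _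
  have hfin : Mf y / 2 ≤ Mf y / 2 * Real.exp (L * (u + 2 * e)) := by
    have : 0 < Mf y / 2 := by positivity
    nlinarith
  calc ‖iteratedDeriv j X (pt y u 0)‖ ≤ Mf y / 2 + Q / c := htri.trans (add_le_add hend hint)
    _ ≤ Mf y / 2 * Real.exp (L * (u + 2 * e)) + Mf y / 2 * Real.exp (L * (u + 2 * e)) := add_le_add hfin hQc
    _ = Mf y * Real.exp (L * (u + 2 * e)) := by ring

end Pool.Agent.H976.O
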